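import Pool.Agent.Helper63.Sidon.Renewal

/-!
# The energy inequality for Sidon sets

Ramp kernel `psi j = u - j` on `0 ≤ j < u`, weight `wt r = ∑ s < u, (u - s) * ren (r + s)`.
For a finite set `A` of integers in `[0, D]` whose nonzero differences are distinct, Cauchy-Schwarz
for `∑ r, (∑ a ∈ A, psi (a - r)) * wt r` gives the bound `energy_main`.
-/

set_option autoImplicit false

open Finset

namespace Pool.Agent.Helper63.Sidon

/-- The ramp kernel. -/
noncomputable def psi (u : ℕ) (x : ℤ) : ℝ := if 0 ≤ x ∧ x < u then (u : ℝ) - x else 0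

lemma psi_nonneg (u : ℕ) (x : ℤ) : 0 ≤ psi u x := by
  unfold psi
  split_ifs with h
  · have : (x : ℝ) < u := by exact_mod_cast h.2
    linarith
  · exact le_rfl

lemma psi_nat (u j : ℕ) (hj : j < u) : psi u (j : ℤ) = (u : ℝ) - j := by
  unfold psi
  rw [if_pos ⟨by omega, by exact_mod_cast hj⟩]
  simp

/-- Summation against a translate of the ramp. -/
lemma sum_psi (u : ℕ) (f : ℤ → ℝ) (a : ℤ) (R : Finset ℤ) (hR : Finset.Ioc (a - u) a ⊆ R) :
    ∑ r ∈ R, psi u (a - r) * f r = ∑ i ∈ range u, ((u : ℝ) - i) * f (a - i) := by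
  have h1 : ∑ r ∈ R, psi u (a - r) * f r = ∑ r ∈ Finset.Ioc (a - u) a, psi u (a - r) * f r := by
    symm
    apply Finset.sum_subset hR
    intro x _ hx
    rw [Finset.mem_Ioc] at hx
    unfold psi
    rw [if_neg (by omega)]
    simp
  rw [h1]
  symm
  refine Finset.sum_nbij' (fun i : ℕ => a - (i : ℤ)) (fun r : ℤ => (a - r).toNat) ?_ ?_ ?_ ?_ ?_
  · intro i hi
    simp only [Finset.mem_range] at hi
    simp only [Finset.mem_Ioc]
    omega
  · intro r hr
    simp only [Finset.mem_Ioc] at hr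
    simp only [Finset.mem_range]
    omega
  · intro i hi
    simp
  · intro r hr
    simp only [Finset.mem_Ioc] at hr
    have : (((a - r).toNat : ℕ) : ℤ) = a - r := by omega
    omega
  · intro i hi
    have e : a - (a - (i : ℤ)) = i := by ring
    rw [e, psi_nat u i (Finset.mem_range.1 hi)]

/-- The sum of the ramp over any finite set is at most the total mass. -/
lemma sum_psi_le (u : ℕ) (S : Finset ℤ) (c : ℤ) :
    ∑ d ∈ S, psi u (d + c) ≤ (u : ℝ) * (u + 1) / 2 := by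
  have h1 : ∑ d ∈ S, psi u (d + c) = ∑ e ∈ S.image (fun d => -(d + c)), psi u (0 - e) := by
    rw [Finset.sum_image (by
      intro x _ y _ hxy
      have hxy' : -(x + c) = -(y + c) := hxy
      omega)]
    refine Finset.sum_congr rfl fun d _ => ?_
    congr 1
    ring
  have h2 : ∑ e ∈ S.image (fun d => -(d + c)), psi u (0 - e)
      ≤ ∑ e ∈ S.image (fun d => -(d + c)) ∪ Finset.Ioc (0 - (u : ℤ)) 0, psi u (0 - e) :=
    Finset.sum_le_sum_of_subset_of_nonneg Finset.subset_union_left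
      (fun i _ _ => psi_nonneg u _)
  have h3 := sum_psi u (fun _ => 1) 0 (S.image (fun d => -(d + c)) ∪ Finset.Ioc (0 - (u : ℤ)) 0)
    Finset.subset_union_right
  simp only [mul_one] at h3
  rw [h3, ramp_sum] at h2
  rw [h1]
  exact h2

/-- The weight. -/
noncomputable def wt (u : ℕ) (r : ℤ) : ℝ := ∑ s ∈ range u, ((u : ℝ) - s) * ren u (r + s)

lemma wt_conv (u : ℕ) (hu : 0 < u) (x : ℤ) (hx : 0 ≤ x) :
    ∑ i ∈ range u, ((u : ℝ) - i) * wt u (x - i) = (u : ℝ) * (u + 1) / 2 * u := by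
  have h1 : ∑ i ∈ range u, ((u : ℝ) - i) * wt u (x - i)
      = ∑ s ∈ range u, ((u : ℝ) - s) * ∑ i ∈ range u, ((u : ℝ) - i) * ren u ((x + s) - i) := by
    unfold wt
    simp only [Finset.mul_sum]
    rw [Finset.sum_comm]
    refine Finset.sum_congr rfl fun s _ => Finset.sum_congr rfl fun i _ => ?_
    have e : x - (i : ℤ) + s = x + s - i := by ring
    rw [e]
    ring
  rw [h1]
  have h2 : ∀ s ∈ range u, ((u : ℝ) - s) * ∑ i ∈ range u, ((u : ℝ) - i) * ren u ((x + s) - i)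
      = ((u : ℝ) - s) * u := by
    intro s _
    rw [ramp_conv u hu (x + s) (by omega)]
  rw [Finset.sum_congr rfl h2, ← Finset.sum_mul, ramp_sum]

/-- Shifting an interval sum. -/
lemma sum_shift (f : ℤ → ℝ) (a b c : ℤ) :
    ∑ x ∈ Finset.Ioc a b, f (x + c) = ∑ x ∈ Finset.Ioc (a + c) (b + c), f x := by
  refine Finset.sum_nbij' (fun x => x + c) (fun x => x - c) ?_ ?_ ?_ ?_ ?_
  · intro i hi
    simp only [Finset.mem_Ioc] at hi ⊢
    omega
  · intro i hi
    simp only [Finset.mem_Ioc] at hi ⊢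
    omega
  · intro i hi
    simp
  · intro i hi
    simp
  · intro i hi
    rfl

lemma sum_Ioc_split (f : ℤ → ℝ) (a b c : ℤ) (hab : a ≤ b) (hbc : b ≤ c) :
    ∑ x ∈ Finset.Ioc a c, f x = ∑ x ∈ Finset.Ioc a b, f x + ∑ x ∈ Finset.Ioc b c, f x := by
  rw [← Finset.sum_union]
  · congr 1
    ext x
    simp only [Finset.mem_Ioc, Finset.mem_union]
    omega
  · rw [Finset.disjoint_left]
    intro x hx hx'
    simp only [Finset.mem_Ioc] at hx hx'
    omega

/-- The total mass of the renewal sequence on `[0, D]`. -/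
noncomputable def tot (u : ℕ) (D : ℤ) : ℝ := ∑ x ∈ Finset.Ioc (-1) D, ren u x

lemma tot_le (u : ℕ) (hu : 0 < u) (D : ℤ) (hD : (u : ℤ) ≤ D) (M : ℝ)
    (hM : ∀ x : ℤ, D - u < x → ren u x ≤ M) :
    (u : ℝ) * (u + 1) / 2 * tot u D
      ≤ u * (D + 1) + M * ((u : ℝ) * (u + 1) / 2 * ((u - 1) / 3)) := by
  have h1 : ∑ n ∈ Finset.Ioc (-1) D, ∑ j ∈ range u, ((u : ℝ) - j) * ren u (n - j)
      = u * (D + 1) := by
    have h : ∀ n ∈ Finset.Ioc (-1) D, ∑ j ∈ range u, ((u : ℝ) - j) * ren u (n - j) = u := by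
      intro n hn
      rw [Finset.mem_Ioc] at hn
      exact ramp_conv u hu n (by omega)
    rw [Finset.sum_congr rfl h, Finset.sum_const, Int.card_Ioc, nsmul_eq_mul]
    have : (((D - -1).toNat : ℕ) : ℝ) = D + 1 := by
      have h2 : (((D - -1).toNat : ℕ) : ℤ) = D + 1 := by omega
      exact_mod_cast h2
    rw [this]
    ring
  rw [Finset.sum_comm] at h1
  have h2 : ∀ j ∈ range u, ((u : ℝ) - j) * tot u D - ((u : ℝ) - j) * j * M
      ≤ ∑ n ∈ Finset.Ioc (-1) D, ((u : ℝ) - j) * ren u (n - j) := by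
    intro j hj
    have hju := Finset.mem_range.1 hj
    rw [← Finset.mul_sum]
    have hj0 : 0 ≤ (u : ℝ) - j := by
      have : (j : ℝ) ≤ u := by exact_mod_cast hju.le
      linarith
    have h3 : ∑ n ∈ Finset.Ioc (-1) D, ren u (n - j) = ∑ x ∈ Finset.Ioc (-1) (D - j), ren u x := by
      have h4 := sum_shift (ren u) (-1) D (-(j : ℤ))
      have h5 : ∑ n ∈ Finset.Ioc (-1) D, ren u (n - j)
          = ∑ x ∈ Finset.Ioc (-1 + -(j : ℤ)) (D + -(j : ℤ)), ren u x := by
        rw [← h4]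
        rfl
      rw [h5, sum_Ioc_split (ren u) _ (-1) _ (by omega) (by omega)]
      rw [Finset.sum_eq_zero (s := Finset.Ioc (-1 + -(j : ℤ)) (-1))]
      · rw [zero_add]
        rfl
      · intro x hx
        rw [Finset.mem_Ioc] at hx
        exact ren_neg u x (by omega)
    have h6 : tot u D = ∑ x ∈ Finset.Ioc (-1) (D - j), ren u x
        + ∑ x ∈ Finset.Ioc (D - j) D, ren u x := by
      unfold tot
      exact sum_Ioc_split (ren u) _ (D - j) _ (by omega) (by omega)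
    have h7 : ∑ x ∈ Finset.Ioc (D - j) D, ren u x ≤ j * M := by
      have h8 : ∑ x ∈ Finset.Ioc (D - j) D, ren u x ≤ ∑ x ∈ Finset.Ioc (D - (j : ℤ)) D, M := by
        apply Finset.sum_le_sum
        intro x hx
        rw [Finset.mem_Ioc] at hx
        exact hM x (by omega)
      rw [Finset.sum_const, Int.card_Ioc, nsmul_eq_mul] at h8
      have h9 : (D - (D - (j : ℤ))).toNat = j := by omega
      rw [h9] at h8
      exact h8
    rw [h3]
    have h10 : ((u : ℝ) - j) * (∑ x ∈ Finset.Ioc (D - j) D, ren u x) ≤ ((u : ℝ) - j) * (j * M) :=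
      mul_le_mul_of_nonneg_left h7 hj0
    rw [h6]
    linarith
  have h11 := Finset.sum_le_sum h2
  rw [h1, Finset.sum_sub_distrib, ← Finset.sum_mul, ← Finset.sum_mul, ramp_sum,
    ramp_moment] at h11
  linarith

/-- The bound for the sum of squares of the weights. -/
lemma wt_sq_sum (u : ℕ) (hu : 0 < u) (D : ℤ) (hD : (u : ℤ) ≤ D) (M : ℝ) (hM0 : 0 ≤ M)
    (hM : ∀ x : ℤ, D - u < x → ren u x ≤ M) (hM' : ∀ x : ℤ, D - u < x → 0 ≤ ren u x) :
    ∑ r ∈ Finset.Ioc (-(u : ℤ)) D, wt u r ^ 2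
      ≤ (u : ℝ) * (u + 1) / 2 * u * tot u D
        + (u : ℝ) * (u + 1) / 2 * ((u - 1) / 3) * ((u : ℝ) * (u + 1) / 2 * M * M) := by
  set P : ℝ := (u : ℝ) * (u + 1) / 2 with hP
  have hP0 : 0 ≤ P := by rw [hP]; positivity
  have hw : ∀ r : ℤ, D - u < r → wt u r ≤ P * M ∧ 0 ≤ wt u r := by
    intro r hr
    constructor
    · rw [hP, ← ramp_sum, Finset.sum_mul]
      unfold wt
      refine Finset.sum_le_sum fun s hs => ?_
      have : (s : ℝ) ≤ u := by exact_mod_cast (Finset.mem_range.1 hs).le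
      exact mul_le_mul_of_nonneg_left (hM _ (by omega)) (by linarith)
    · unfold wt
      refine Finset.sum_nonneg fun s hs => ?_
      have : (s : ℝ) ≤ u := by exact_mod_cast (Finset.mem_range.1 hs).le
      exact mul_nonneg (by linarith) (hM' _ (by omega))
  have h1 : ∑ r ∈ Finset.Ioc (-(u : ℤ)) D, wt u r ^ 2
      = ∑ s ∈ range u, ((u : ℝ) - s) * ∑ x ∈ Finset.Ioc (-(u : ℤ) + s) (D + s),
        wt u (x - s) * ren u x := by
    have h2 : ∀ s ∈ range u, ((u : ℝ) - s) * ∑ x ∈ Finset.Ioc (-(u : ℤ) + s) (D + s),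
        wt u (x - s) * ren u x
        = ∑ r ∈ Finset.Ioc (-(u : ℤ)) D, ((u : ℝ) - s) * (wt u r * ren u (r + s)) := by
      intro s _
      rw [← sum_shift (fun x => wt u (x - s) * ren u x) (-(u : ℤ)) D s, Finset.mul_sum]
      refine Finset.sum_congr rfl fun r _ => ?_
      simp only [add_sub_cancel_right]
    rw [Finset.sum_congr rfl h2, Finset.sum_comm]
    refine Finset.sum_congr rfl fun r _ => ?_
    rw [sq]
    nth_rewrite 2 [wt]
    rw [Finset.mul_sum]
    refine Finset.sum_congr rfl fun s _ => ?_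
    ring
  have h3 : ∀ s ∈ range u, ((u : ℝ) - s) * ∑ x ∈ Finset.Ioc (-(u : ℤ) + s) (D + s),
        wt u (x - s) * ren u x
      ≤ ∑ x ∈ Finset.Ioc (-1) D, ((u : ℝ) - s) * (wt u (x - s) * ren u x)
        + ((u : ℝ) - s) * s * (P * M * M) := by
    intro s hs
    have hsu := Finset.mem_range.1 hs
    have hs0 : 0 ≤ (u : ℝ) - s := by
      have : (s : ℝ) ≤ u := by exact_mod_cast hsu.le
      linarith
    rw [sum_Ioc_split _ _ (-1) _ (by omega) (by omega), sum_Ioc_split _ (-1) D _ (by omega)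
      (by omega), Finset.sum_eq_zero (s := Finset.Ioc (-(u : ℤ) + s) (-1)) (by
        intro x hx
        rw [Finset.mem_Ioc] at hx
        rw [ren_neg u x (by omega), mul_zero]), zero_add, mul_add, ← Finset.mul_sum]
    have h4 : ∑ x ∈ Finset.Ioc D (D + s), wt u (x - s) * ren u x ≤ s * (P * M * M) := by
      have h5 : ∑ x ∈ Finset.Ioc D (D + s), wt u (x - s) * ren u x
          ≤ ∑ x ∈ Finset.Ioc D (D + (s : ℤ)), P * M * M := by
        apply Finset.sum_le_sum
        intro x hx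
        rw [Finset.mem_Ioc] at hx
        have h6 := hw (x - s) (by omega)
        have h7 := hM x (by omega)
        have h8 := hM' x (by omega)
        exact mul_le_mul h6.1 h7 h8 (by positivity)
      rw [Finset.sum_const, Int.card_Ioc, nsmul_eq_mul] at h5
      have h9 : (D + (s : ℤ) - D).toNat = s := by omega
      rw [h9] at h5
      exact h5
    have h10 := mul_le_mul_of_nonneg_left h4 hs0
    linarith
  have h11 := Finset.sum_le_sum h3
  rw [← h1, Finset.sum_add_distrib, Finset.sum_comm, ← Finset.sum_mul, ramp_moment] at h11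
  have h12 : ∑ x ∈ Finset.Ioc (-1) D, ∑ s ∈ range u, ((u : ℝ) - s) * (wt u (x - s) * ren u x)
      = P * u * tot u D := by
    unfold tot
    rw [Finset.mul_sum]
    refine Finset.sum_congr rfl fun x hx => ?_
    rw [Finset.mem_Ioc] at hx
    have h13 := wt_conv u hu x (by omega)
    rw [hP, ← h13, Finset.sum_mul]
    refine Finset.sum_congr rfl fun s _ => ?_
    ring
  rw [h12] at h11
  exact h11

/-- The energy of the smoothed indicator of a set with distinct nonzero differences. -/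
lemma smooth_sq_sum (u : ℕ) (D : ℤ) (A : Finset ℤ)
    (hA : ∀ a ∈ A, 0 ≤ a ∧ a ≤ D)
    (hS : ∀ a ∈ A, ∀ b ∈ A, ∀ c ∈ A, ∀ d ∈ A, a ≠ b → a - b = c - d → a = c ∧ b = d) :
    ∑ r ∈ Finset.Ioc (-(u : ℤ)) D, (∑ a ∈ A, psi u (a - r)) ^ 2
      ≤ (A.card : ℝ) * ((u : ℝ) * (u + 1) * (2 * u + 1) / 6)
        + ((u : ℝ) * (u + 1) / 2) ^ 2 := by
  classical
  -- the autocorrelation
  set F : ℤ → ℝ := fun d => ∑ i ∈ range u, ((u : ℝ) - i) * psi u (d + i) with hF
  have hF0 : ∀ d, 0 ≤ F d := by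
    intro d
    refine Finset.sum_nonneg fun i hi => ?_
    have : (i : ℝ) ≤ u := by exact_mod_cast (Finset.mem_range.1 hi).le
    exact mul_nonneg (by linarith) (psi_nonneg u _)
  have hFz : F 0 = (u : ℝ) * (u + 1) * (2 * u + 1) / 6 := by
    rw [← ramp_sq_sum]
    refine Finset.sum_congr rfl fun i hi => ?_
    rw [zero_add, psi_nat u i (Finset.mem_range.1 hi)]
    ring
  have hsub : ∀ a ∈ A, Finset.Ioc (a - u) a ⊆ Finset.Ioc (-(u : ℤ)) D := by
    intro a ha x hx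
    have := hA a ha
    rw [Finset.mem_Ioc] at hx ⊢
    omega
  have h1 : ∑ r ∈ Finset.Ioc (-(u : ℤ)) D, (∑ a ∈ A, psi u (a - r)) ^ 2
      = ∑ a ∈ A, ∑ b ∈ A, F (b - a) := by
    have h2 : ∀ r ∈ Finset.Ioc (-(u : ℤ)) D, (∑ a ∈ A, psi u (a - r)) ^ 2
        = ∑ a ∈ A, ∑ b ∈ A, psi u (a - r) * psi u (b - r) := by
      intro r _
      rw [sq, Finset.sum_mul_sum]
    rw [Finset.sum_congr rfl h2, Finset.sum_comm]
    refine Finset.sum_congr rfl fun a ha => ?_
    rw [Finset.sum_comm]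
    refine Finset.sum_congr rfl fun b _ => ?_
    rw [sum_psi u (fun r => psi u (b - r)) a _ (hsub a ha)]
    refine Finset.sum_congr rfl fun i _ => ?_
    congr 2
    ring
  rw [h1, ← Finset.sum_product', ← Finset.diag_union_offDiag,
    Finset.sum_union (Finset.disjoint_diag_offDiag A)]
  have h3 : ∑ x ∈ A.diag, F (x.2 - x.1)
      = (A.card : ℝ) * ((u : ℝ) * (u + 1) * (2 * u + 1) / 6) := by
    rw [Finset.sum_diag]
    simp only [sub_self]
    rw [hFz, Finset.sum_const, nsmul_eq_mul]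
  rw [h3]
  have h4 : ∑ x ∈ A.offDiag, F (x.2 - x.1)
      = ∑ d ∈ A.offDiag.image (fun x => x.2 - x.1), F d := by
    rw [Finset.sum_image]
    intro x hx y hy hxy
    simp only [Finset.coe_offDiag, Set.mem_offDiag, Finset.mem_coe] at hx hy
    have := hS x.2 hx.2.1 x.1 hx.1 y.2 hy.2.1 y.1 hy.1 (Ne.symm hx.2.2) hxy
    exact Prod.ext this.2 this.1
  rw [h4]
  have h5 : ∑ d ∈ A.offDiag.image (fun x => x.2 - x.1), F d
      ≤ ((u : ℝ) * (u + 1) / 2) ^ 2 := by
    rw [hF, Finset.sum_comm]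
    have h6 : ∀ i ∈ range u, ∑ d ∈ A.offDiag.image (fun x => x.2 - x.1),
        ((u : ℝ) - i) * psi u (d + i) ≤ ((u : ℝ) - i) * ((u : ℝ) * (u + 1) / 2) := by
      intro i hi
      rw [← Finset.mul_sum]
      have : (i : ℝ) ≤ u := by exact_mod_cast (Finset.mem_range.1 hi).le
      exact mul_le_mul_of_nonneg_left (sum_psi_le u _ i) (by linarith)
    refine (Finset.sum_le_sum h6).trans ?_
    rw [← Finset.sum_mul, ramp_sum, sq]
  linarith

/-- The Cauchy-Schwarz step. -/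
lemma energy_cs (u : ℕ) (hu : 0 < u) (D : ℤ) (A : Finset ℤ)
    (hA : ∀ a ∈ A, 0 ≤ a ∧ a ≤ D) :
    ((A.card : ℝ) * ((u : ℝ) * (u + 1) / 2 * u)) ^ 2
      ≤ (∑ r ∈ Finset.Ioc (-(u : ℤ)) D, (∑ a ∈ A, psi u (a - r)) ^ 2)
        * ∑ r ∈ Finset.Ioc (-(u : ℤ)) D, wt u r ^ 2 := by
  have h1 : ∑ r ∈ Finset.Ioc (-(u : ℤ)) D, (∑ a ∈ A, psi u (a - r)) * wt u r
      = (A.card : ℝ) * ((u : ℝ) * (u + 1) / 2 * u) := by
    have h2 : ∀ r ∈ Finset.Ioc (-(u : ℤ)) D, (∑ a ∈ A, psi u (a - r)) * wt u r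
        = ∑ a ∈ A, psi u (a - r) * wt u r := by
      intro r _
      rw [Finset.sum_mul]
    rw [Finset.sum_congr rfl h2, Finset.sum_comm, ← nsmul_eq_mul, ← Finset.sum_const]
    refine Finset.sum_congr rfl fun a ha => ?_
    have haD := hA a ha
    rw [sum_psi u (wt u) a _ (by
      intro x hx
      rw [Finset.mem_Ioc] at hx ⊢
      omega)]
    exact wt_conv u hu a haD.1
  rw [← h1]
  exact Finset.sum_mul_sq_le_sq_mul_sq _ _ _

/-- The main inequality: for a set of `k` integers in `[0, D]` with distinct nonzero differences,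
`k^2 ≤ (1 + 4k/(3u)) (D + 1 + (2u/3) (1 + e)^2)` where `ren u x ≤ (1 + e) * lim u` for
`x > D - u`. -/
theorem energy_main (u : ℕ) (hu : 0 < u) (D : ℤ) (hD : (u : ℤ) ≤ D) (e : ℝ) (he : 0 ≤ e)
    (hM : ∀ x : ℤ, D - u < x → ren u x ≤ (1 + e) * lim u)
    (hM' : ∀ x : ℤ, D - u < x → 0 ≤ ren u x) (A : Finset ℤ)
    (hA : ∀ a ∈ A, 0 ≤ a ∧ a ≤ D)
    (hS : ∀ a ∈ A, ∀ b ∈ A, ∀ c ∈ A, ∀ d ∈ A, a ≠ b → a - b = c - d → a = c ∧ b = d) :
    (A.card : ℝ) ^ 2 ≤ (1 + 4 * A.card / (3 * u)) * (D + 1 + 2 * u / 3 * (1 + e) ^ 2) := by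
  have hu' : (1 : ℝ) ≤ u := by exact_mod_cast hu
  have hD' : (u : ℝ) ≤ D := by exact_mod_cast hD
  set M : ℝ := (1 + e) * lim u with hMdef
  have hM0 : 0 ≤ M := by
    have := lim_pos u
    positivity
  have h1 := energy_cs u hu D A hA
  have h2 := smooth_sq_sum u D A hA hS
  have h3 := wt_sq_sum u hu D hD M hM0 hM hM'
  have h4 := tot_le u hu D hD M hM
  have hlim := lim_mul u
  set P : ℝ := (u : ℝ) * (u + 1) / 2 with hP
  set k : ℝ := (A.card : ℝ) with hk
  have hk0 : 0 ≤ k := by positivity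
  have hPpos : 0 < P := by rw [hP]; positivity
  have hMP : P * M = (1 + e) * u := by
    rw [hMdef]
    linear_combination (1 + e) * hlim
  -- the weights
  have h5 : ∑ r ∈ Finset.Ioc (-(u : ℤ)) D, wt u r ^ 2
      ≤ (u : ℝ) ^ 2 * (D + 1 + 2 * u / 3 * (1 + e) ^ 2) := by
    have h6 : P * u * tot u D ≤ u * (u * (D + 1) + M * (P * ((u - 1) / 3))) := by
      have := mul_le_mul_of_nonneg_left h4 (show (0 : ℝ) ≤ u by linarith)
      linarith
    have h7 : P * ((u - 1) / 3) * (P * M * M) = (u - 1) / 3 * ((1 + e) ^ 2 * u ^ 2) := by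
      have : P * ((u - 1) / 3) * (P * M * M) = (u - 1) / 3 * ((P * M) ^ 2) := by ring
      rw [this, hMP]
      ring
    have h8 : M * (P * (((u : ℝ) - 1) / 3)) = (u - 1) / 3 * ((1 + e) * u) := by
      rw [← hMP]
      ring
    rw [h8] at h6
    rw [h7] at h3
    have h9 : (1 + e) * (u : ℝ) ≤ (1 + e) ^ 2 * u := by
      have : (1 + e) ≤ (1 + e) ^ 2 := by nlinarith
      exact mul_le_mul_of_nonneg_right this (by linarith)
    have h10 : ((u : ℝ) - 1) / 3 * ((1 + e) * u) ≤ (u - 1) / 3 * ((1 + e) ^ 2 * u) :=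
      mul_le_mul_of_nonneg_left h9 (by linarith)
    have h11 : (u : ℝ) * ((u - 1) / 3 * ((1 + e) * u)) ≤ u * ((u - 1) / 3 * ((1 + e) ^ 2 * u)) :=
      mul_le_mul_of_nonneg_left h10 (by linarith)
    have h12 : 0 ≤ (u : ℝ) ^ 2 * (2 / 3 * (1 + e) ^ 2) := by positivity
    nlinarith [h3, h6, h11, h12]
  have h13 : k * ((u : ℝ) * (u + 1) * (2 * u + 1) / 6) + P ^ 2
      ≤ P ^ 2 * (1 + 4 * k / (3 * u)) := by
    have h14 : (u : ℝ) * (u + 1) * (2 * u + 1) / 6 ≤ P ^ 2 * (4 / (3 * u)) := by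
      have e1 : P ^ 2 * (4 / (3 * (u : ℝ))) = u * (u + 1) ^ 2 / 3 := by
        rw [hP]
        field_simp
        ring
      rw [e1]
      nlinarith [mul_nonneg (show (0 : ℝ) ≤ u by linarith) (show (0 : ℝ) ≤ (u : ℝ) + 1 by linarith)]
    have h15 := mul_le_mul_of_nonneg_left h14 hk0
    have e2 : P ^ 2 * (1 + 4 * k / (3 * u)) = k * (P ^ 2 * (4 / (3 * u))) + P ^ 2 := by
      field_simp
      ring
    rw [e2]
    linarith
  have h16 : (k * (P * u)) ^ 2 ≤ (P ^ 2 * (1 + 4 * k / (3 * u)))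
      * ((u : ℝ) ^ 2 * (D + 1 + 2 * u / 3 * (1 + e) ^ 2)) := by
    refine h1.trans (mul_le_mul (h2.trans h13) h5 ?_ ?_)
    · exact Finset.sum_nonneg fun _ _ => sq_nonneg _
    · positivity
  have h17 : 0 < (P * (u : ℝ)) ^ 2 := by positivity
  have h18 : (P * (u : ℝ)) ^ 2 * k ^ 2 ≤ (P * (u : ℝ)) ^ 2
      * ((1 + 4 * k / (3 * u)) * (D + 1 + 2 * u / 3 * (1 + e) ^ 2)) := by
    calc (P * (u : ℝ)) ^ 2 * k ^ 2 = (k * (P * u)) ^ 2 := by ring
      _ ≤ _ := h16
      _ = _ := by ring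
  exact le_of_mul_le_mul_left h18 h17

end Pool.Agent.Helper63.Sidon
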