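import Pool.Agent.Helper63.Sidon.Energy

/-!
# From the energy inequality to the bound on the size
-/

set_option autoImplicit false

open Finset

namespace Pool.Agent.Helper63.Sidon

/-- Elementary inversion of the quartic inequality. -/
lemma quartic (b c t s : ℝ) (hb : 0 ≤ b) (hc : 0 ≤ c) (ht : 1 ≤ t) (hs : 0 ≤ s)
    (h : t ^ 4 ≤ s ^ 4 + 2 * b * t ^ 3 + c * t ^ 2) :
    t ^ 2 ≤ s ^ 2 + b * s + ((c + 6 * (2 * b + c) ^ 2) / 2 + (2 * b + c) ^ 2) := by
  have ht0 : 0 < t := by linarith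
  by_cases hts : t ≤ s
  · have h1 : t ^ 2 ≤ s ^ 2 := pow_le_pow_left₀ ht0.le hts 2
    have h2 : 0 ≤ b * s := mul_nonneg hb hs
    have h3 : 0 ≤ (c + 6 * (2 * b + c) ^ 2) / 2 + (2 * b + c) ^ 2 := by positivity
    linarith
  · push Not at hts
    set B := 2 * b + c with hB
    have hB0 : 0 ≤ B := by positivity
    set d := t - s with hd
    have hd0 : 0 < d := by rw [hd]; linarith
    have hfac : d * ((t + s) * (t ^ 2 + s ^ 2)) = t ^ 4 - s ^ 4 := by rw [hd]; ring
    have hdB : d ≤ B := by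
      have h1 : t ^ 3 ≤ (t + s) * (t ^ 2 + s ^ 2) := by
        have : 0 ≤ s * t ^ 2 + t * s ^ 2 + s ^ 3 := by positivity
        nlinarith
      have h2 : d * t ^ 3 ≤ t ^ 4 - s ^ 4 := by
        rw [← hfac]
        exact mul_le_mul_of_nonneg_left h1 hd0.le
      have h3 : c * t ^ 2 ≤ c * t ^ 3 := by
        apply mul_le_mul_of_nonneg_left _ hc
        exact pow_le_pow_right₀ ht (by norm_num)
      have h4 : d * t ^ 3 ≤ B * t ^ 3 := by
        rw [hB]
        linarith
      exact le_of_mul_le_mul_right h4 (by positivity)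
    have hkey : t ^ 2 * (4 * t - 6 * B) ≤ (t + s) * (t ^ 2 + s ^ 2) := by
      by_cases htB : t ≤ B
      · have h1 : t ^ 2 * (4 * t - 6 * B) ≤ 0 := by
          apply mul_nonpos_of_nonneg_of_nonpos (by positivity)
          linarith
        have h2 : 0 ≤ (t + s) * (t ^ 2 + s ^ 2) := by positivity
        linarith
      · push Not at htB
        have h1 : 0 ≤ t - B := by linarith
        have h2 : t - B ≤ s := by linarith
        have h3 : (t - B) ^ 2 ≤ s ^ 2 := pow_le_pow_left₀ h1 h2 2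
        have h4 : (t + (t - B)) * (t ^ 2 + (t - B) ^ 2) ≤ (t + s) * (t ^ 2 + s ^ 2) := by
          apply mul_le_mul (by linarith) (by linarith) (by positivity) (by positivity)
        have h5 : t ^ 2 * (4 * t - 6 * B) ≤ (t + (t - B)) * (t ^ 2 + (t - B) ^ 2) := by
          have h6 : (t + (t - B)) * (t ^ 2 + (t - B) ^ 2)
              = t ^ 2 * (4 * t - 6 * B) + B ^ 2 * (4 * t - B) := by ring
          have h7 : 0 ≤ B ^ 2 * (4 * t - B) := mul_nonneg (sq_nonneg _) (by linarith)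
          linarith
        linarith
    have h8 : d * (4 * t - 6 * B) ≤ 2 * b * t + c := by
      have h9 : d * (t ^ 2 * (4 * t - 6 * B)) ≤ 2 * b * t ^ 3 + c * t ^ 2 := by
        have := mul_le_mul_of_nonneg_left hkey hd0.le
        rw [hfac] at this
        linarith
      have h10 : t ^ 2 * (d * (4 * t - 6 * B)) ≤ t ^ 2 * (2 * b * t + c) := by
        nlinarith [h9]
      exact le_of_mul_le_mul_left h10 (by positivity)
    have h11 : 4 * t * d ≤ 2 * b * t + (c + 6 * B ^ 2) := by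
      have : 6 * B * d ≤ 6 * B * B := mul_le_mul_of_nonneg_left hdB (by positivity)
      nlinarith
    have hE : 0 ≤ c + 6 * B ^ 2 := by positivity
    have h12 : 2 * s * d ≤ b * s + (c + 6 * B ^ 2) / 2 := by
      have h13 : s * (4 * t * d) ≤ s * (2 * b * t + (c + 6 * B ^ 2)) :=
        mul_le_mul_of_nonneg_left h11 hs
      have h14 : s * (c + 6 * B ^ 2) ≤ t * (c + 6 * B ^ 2) :=
        mul_le_mul_of_nonneg_right hts.le hE
      have h15 : (2 * t) * (2 * s * d) ≤ (2 * t) * (b * s + (c + 6 * B ^ 2) / 2) := by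
        nlinarith
      exact le_of_mul_le_mul_left h15 (by positivity)
    have h16 : t ^ 2 = s ^ 2 + 2 * s * d + d ^ 2 := by rw [hd]; ring
    have h17 : d ^ 2 ≤ B ^ 2 := pow_le_pow_left₀ hd0.le hdB 2
    linarith

/-- The counting bound: distinct differences. -/
lemma trivial_bound (N : ℕ) (A : Finset ℤ) (hA : ∀ a ∈ A, 0 ≤ a ∧ a ≤ (N : ℤ) - 1)
    (hS : ∀ a ∈ A, ∀ b ∈ A, ∀ c ∈ A, ∀ d ∈ A, a ≠ b → a - b = c - d → a = c ∧ b = d) :
    (A.card : ℝ) ^ 2 - A.card ≤ 2 * N := by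
  classical
  have h1 : A.offDiag.card ≤ (Finset.Ioo (-(N : ℤ)) N).card := by
    apply Finset.card_le_card_of_injOn (fun x => x.2 - x.1)
    · intro x hx
      simp only [Finset.coe_offDiag, Set.mem_offDiag, Finset.mem_coe] at hx
      have h2 := hA _ hx.1
      have h3 := hA _ hx.2.1
      simp only [Finset.coe_Ioo, Set.mem_Ioo]
      omega
    · intro x hx y hy hxy
      simp only [Finset.coe_offDiag, Set.mem_offDiag, Finset.mem_coe] at hx hy
      have := hS x.2 hx.2.1 x.1 hx.1 y.2 hy.2.1 y.1 hy.1 (Ne.symm hx.2.2) hxy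
      exact Prod.ext this.2 this.1
  rw [Finset.offDiag_card, Int.card_Ioo] at h1
  have h4 : A.card * A.card ≤ 2 * N + A.card := by omega
  have h5 : (A.card : ℝ) * A.card ≤ 2 * N + A.card := by exact_mod_cast h4
  nlinarith

/-- The size of a set of integers in `[0, N - 1]` with distinct differences. -/
theorem size_bound : ∃ C : ℝ, ∀ (N : ℕ) (A : Finset ℤ), 0 < N →
    (∀ a ∈ A, 0 ≤ a ∧ a ≤ (N : ℤ) - 1) →
    (∀ a ∈ A, ∀ b ∈ A, ∀ c ∈ A, ∀ d ∈ A, a ≠ b → a - b = c - d → a = c ∧ b = d) →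
    (A.card : ℝ) ≤ √N + 2 * √2 / 3 * √(√N) + C := by
  set K : ℝ := 151875 with hK
  set L : ℝ := 2 * K + K ^ 2 with hL
  set c : ℝ := 3 + 2 * L with hc
  set b : ℝ := 2 * √2 / 3 with hb
  have hs2 : √2 ^ 2 = (2 : ℝ) := Real.sq_sqrt (by norm_num)
  have hs2pos : 0 < √(2 : ℝ) := by positivity
  have hs2lt : √(2 : ℝ) ≤ 1.4143 := by
    rw [Real.sqrt_le_left (by norm_num)]
    norm_num
  have hb0 : 0 ≤ b := by rw [hb]; positivity
  have hK0 : 0 ≤ K := by rw [hK]; norm_num
  have hL0 : 0 ≤ L := by rw [hL]; positivity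
  have hc0 : 0 ≤ c := by rw [hc]; positivity
  have hb1 : b ≤ 1 := by rw [hb]; linarith
  have hC0 : 0 ≤ (c + 6 * (2 * b + c) ^ 2) / 2 + (2 * b + c) ^ 2 := by positivity
  refine ⟨(c + 6 * (2 * b + c) ^ 2) / 2 + (2 * b + c) ^ 2 + 16, ?_⟩
  intro N A hN hA hS
  set k : ℝ := (A.card : ℝ) with hk
  have hk0 : 0 ≤ k := by positivity
  have hNs : 0 ≤ √(N : ℝ) := Real.sqrt_nonneg _
  have hNss : 0 ≤ √(√(N : ℝ)) := Real.sqrt_nonneg _
  have hbs : 0 ≤ b * √(√(N : ℝ)) := mul_nonneg hb0 hNss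
  by_cases hk16 : k < 16
  · linarith
  push Not at hk16
  by_cases hkN : k ^ 2 ≤ N
  · have : k ≤ √(N : ℝ) := Real.le_sqrt_of_sq_le hkN
    linarith
  push Not at hkN
  have htriv := trivial_bound N A hA hS
  rw [← hk] at htriv
  -- the square root of the size
  set t : ℝ := √k with ht
  have htsq : t ^ 2 = k := Real.sq_sqrt hk0
  have ht4 : 4 ≤ t := by
    rw [ht]
    apply Real.le_sqrt_of_sq_le
    linarith
  have ht0 : 0 < t := by linarith
  have hNr : (0 : ℝ) < N := by exact_mod_cast hN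
  have hN1 : 2 / 5 * t ^ 4 ≤ N := by
    have h1 : t ^ 4 = k ^ 2 := by rw [← htsq]; ring
    rw [h1]
    have h2 : 16 * k ≤ k * k := mul_le_mul_of_nonneg_right hk16 hk0
    have h3 : k ^ 2 = k * k := sq k
    linarith
  have hN2 : (N : ℝ) ≤ t ^ 4 := by
    have h1 : t ^ 4 = k ^ 2 := by rw [← htsq]; ring
    rw [h1]
    exact hkN.le
  -- the window length
  obtain ⟨u, hu1, hu2⟩ : ∃ u : ℕ, √2 * t ^ 3 ≤ u ∧ (u : ℝ) ≤ √2 * t ^ 3 + 1 :=
    ⟨⌈√2 * t ^ 3⌉₊, Nat.le_ceil _, (Nat.ceil_lt_add_one (by positivity)).le⟩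
  have ht3 : 64 ≤ t ^ 3 := by
    have := pow_le_pow_left₀ (by norm_num : (0 : ℝ) ≤ 4) ht4 3
    linarith
  have hupos : (0 : ℝ) < u := lt_of_lt_of_le (by positivity) hu1
  have hu0 : 0 < u := by exact_mod_cast hupos
  have hu3 : (u : ℝ) ≤ 3 / 2 * t ^ 3 := by
    have : √2 * t ^ 3 ≤ 1.4143 * t ^ 3 := mul_le_mul_of_nonneg_right hs2lt (by linarith)
    linarith
  have huN : (u : ℤ) ≤ (N : ℤ) - 1 := by
    have h1 : (u : ℝ) + 1 ≤ N := by
      have h2 : 3 / 2 * t ^ 3 + 1 ≤ 2 / 5 * t ^ 4 := by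
        have h3 : t ^ 4 = t * t ^ 3 := by ring
        have h4 : 4 * t ^ 3 ≤ t * t ^ 3 := mul_le_mul_of_nonneg_right ht4 (by linarith)
        rw [h3]
        linarith
      linarith
    have h2 : u + 1 ≤ N := by exact_mod_cast h1
    omega
  -- the error term
  set e : ℝ := ((u : ℝ) + 1) / 2 * Real.exp (-((N : ℝ) - u) / (2 * u)) with he
  have he0 : 0 ≤ e := by rw [he]; positivity
  have heK : e ≤ K / t := by
    have h1 : -((N : ℝ) - u) / (2 * u) ≤ 1 / 2 - 2 / 15 * t := by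
      rw [div_le_iff₀ (by positivity)]
      have h2 : (1 / 2 - 2 / 15 * t) * (2 * (u : ℝ)) = u - 4 / 15 * t * u := by ring
      rw [h2]
      have h3 : 4 / 15 * t * u ≤ N := by
        calc 4 / 15 * t * u ≤ 4 / 15 * t * (3 / 2 * t ^ 3) :=
              mul_le_mul_of_nonneg_left hu3 (by positivity)
          _ = 2 / 5 * t ^ 4 := by ring
          _ ≤ N := hN1
      linarith
    have h4 : Real.exp (-((N : ℝ) - u) / (2 * u)) ≤ 2 * Real.exp (-(2 / 15 * t)) := by
      refine (Real.exp_le_exp.2 h1).trans ?_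
      have h5 : (1 : ℝ) / 2 - 2 / 15 * t = 1 / 2 + -(2 / 15 * t) := by ring
      rw [h5, Real.exp_add]
      apply mul_le_mul_of_nonneg_right _ (Real.exp_pos _).le
      have h6 : Real.exp (1 / 2) ≤ 2 := by
        have h7 : Real.exp (1 / 2) ^ 2 ≤ 2 ^ 2 := by
          rw [← Real.exp_nat_mul]
          norm_num
          linarith [Real.exp_one_lt_d9]
        exact le_of_sq_le_sq h7 (by norm_num)
      exact h6
    have h8 : Real.exp (-(2 / 15 * t)) ≤ 24 / (2 / 15 * t) ^ 4 := by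
      have h9 := Real.pow_div_factorial_le_exp (2 / 15 * t) (by positivity) 4
      rw [Real.exp_neg]
      have h10 : ((4 : ℕ).factorial : ℝ) = 24 := by norm_num [Nat.factorial]
      rw [h10] at h9
      rw [inv_le_comm₀ (Real.exp_pos _) (by positivity), inv_div]
      exact h9
    have h11 : ((u : ℝ) + 1) / 2 ≤ t ^ 3 := by linarith
    calc e ≤ t ^ 3 * (2 * (24 / (2 / 15 * t) ^ 4)) := by
          rw [he]
          apply mul_le_mul h11 (h4.trans (mul_le_mul_of_nonneg_left h8 (by norm_num)))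
            (Real.exp_pos _).le (by positivity)
      _ = K / t := by
          rw [hK]
          field_simp
          ring
  have hMbound : ∀ x : ℤ, ((N : ℤ) - 1) - u < x → ren u x ≤ (1 + e) * lim u := by
    intro x hx
    have hx0 : 0 ≤ x := by omega
    have h1 := cen_abs_le u hu0 x hx0
    have h2 : ren u x ≤ lim u + Real.exp (-(x : ℝ) / (2 * u)) := by
      have := (abs_le.1 h1).2
      unfold cen at this
      linarith
    have h3 : Real.exp (-(x : ℝ) / (2 * u)) ≤ Real.exp (-((N : ℝ) - u) / (2 * u)) := by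
      apply Real.exp_le_exp.2
      apply div_le_div_of_nonneg_right _ (by positivity)
      have h4 : (N : ℤ) - u ≤ x := by omega
      have h5 : (N : ℝ) - u ≤ x := by exact_mod_cast h4
      linarith
    have h6 : e * lim u = Real.exp (-((N : ℝ) - u) / (2 * u)) := by
      rw [he, lim]
      field_simp
    linarith
  have hmain := energy_main u hu0 ((N : ℤ) - 1) huN e he0 hMbound
    (fun x _ => ren_nonneg u x) A hA hS
  rw [← hk] at hmain
  have hcast : (((N : ℤ) - 1 : ℤ) : ℝ) + 1 = N := by push_cast; ring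
  rw [hcast] at hmain
  -- simplify
  have h20 : (1 + e) ^ 2 ≤ 1 + L / t := by
    have h21 : (1 + e) ^ 2 ≤ (1 + K / t) ^ 2 := pow_le_pow_left₀ (by linarith) (by linarith) 2
    have h22 : (K / t) ^ 2 ≤ K ^ 2 / t := by
      rw [div_pow, div_le_div_iff₀ (by positivity) ht0]
      have : t ≤ t ^ 2 := le_self_pow₀ (by linarith) (by norm_num)
      exact mul_le_mul_of_nonneg_left this (by positivity)
    have h23 : L / t = 2 * (K / t) + K ^ 2 / t := by rw [hL]; ring
    rw [h23]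
    have h23' : (1 + K / t) ^ 2 = 1 + 2 * (K / t) + (K / t) ^ 2 := by ring
    linarith
  have h24 : 2 * (u : ℝ) / 3 * (1 + e) ^ 2 ≤ b * t ^ 3 + 2 / 3 + L * t ^ 2 := by
    calc 2 * (u : ℝ) / 3 * (1 + e) ^ 2 ≤ 2 * (u : ℝ) / 3 * (1 + L / t) :=
          mul_le_mul_of_nonneg_left h20 (by positivity)
      _ = 2 * (u : ℝ) / 3 + 2 * (u : ℝ) / 3 * (L / t) := by ring
      _ ≤ (b * t ^ 3 + 2 / 3) + 2 * (3 / 2 * t ^ 3) / 3 * (L / t) := by
          apply add_le_add
          · have : b * t ^ 3 = 2 / 3 * (√2 * t ^ 3) := by rw [hb]; ring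
            linarith
          · apply mul_le_mul_of_nonneg_right _ (by positivity)
            linarith
      _ = b * t ^ 3 + 2 / 3 + L * t ^ 2 := by
          field_simp
  have h25 : 4 * k / (3 * u) ≤ b / t := by
    rw [div_le_div_iff₀ (by positivity) ht0, ← htsq, hb]
    have h26 : 2 * √2 / 3 * (3 * (√2 * t ^ 3)) ≤ 2 * √2 / 3 * (3 * (u : ℝ)) := by
      apply mul_le_mul_of_nonneg_left _ (by positivity)
      linarith
    have h27 : 2 * √2 / 3 * (3 * (√2 * t ^ 3)) = 4 * t ^ 2 * t := by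
      have : 2 * √2 / 3 * (3 * (√2 * t ^ 3)) = 2 * (√2 ^ 2) * t ^ 3 := by ring
      rw [this, hs2]
      ring
    linarith
  have h28 : k ^ 2 ≤ (1 + b / t) * (N + (b * t ^ 3 + 2 / 3 + L * t ^ 2)) := by
    refine hmain.trans ?_
    apply mul_le_mul (by linarith) (by linarith) (by positivity) (by positivity)
  have h29 : t ^ 4 ≤ N + 2 * b * t ^ 3 + c * t ^ 2 := by
    have h30 : t ^ 4 = k ^ 2 := by rw [← htsq]; ring
    rw [h30]
    refine h28.trans ?_
    have h31 : b / t * N ≤ b * t ^ 3 := by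
      calc b / t * N ≤ b / t * t ^ 4 := mul_le_mul_of_nonneg_left hN2 (by positivity)
        _ = b * t ^ 3 := by field_simp
    have h32 : b / t * (b * t ^ 3) = b ^ 2 * t ^ 2 := by field_simp
    have h33 : b / t ≤ 1 := by
      rw [div_le_one ht0]
      linarith
    have h34 : b / t * (2 / 3 + L * t ^ 2) ≤ 2 / 3 + L * t ^ 2 := by
      have : 0 ≤ 2 / 3 + L * t ^ 2 := by positivity
      exact mul_le_of_le_one_left this h33
    have h35 : b ^ 2 ≤ 1 := pow_le_one₀ hb0 hb1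
    have h36 : (1 : ℝ) ≤ t ^ 2 := one_le_pow₀ (by linarith)
    have h37 : b ^ 2 * t ^ 2 ≤ t ^ 2 := mul_le_of_le_one_left (by positivity) h35
    have h38 : (1 + b / t) * (N + (b * t ^ 3 + 2 / 3 + L * t ^ 2))
        = N + b / t * N + b * t ^ 3 + b / t * (b * t ^ 3) + (2 / 3 + L * t ^ 2)
          + b / t * (2 / 3 + L * t ^ 2) := by ring
    rw [h38, hc]
    linarith
  set s : ℝ := √(√(N : ℝ)) with hs
  have hs2' : s ^ 2 = √(N : ℝ) := Real.sq_sqrt hNs
  have hs4 : s ^ 4 = N := by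
    have : s ^ 4 = (s ^ 2) ^ 2 := by ring
    rw [this, hs2', Real.sq_sqrt hNr.le]
  have hq := quartic b c t s hb0 hc0 (by linarith) hNss (by rw [hs4]; exact h29)
  rw [htsq, hs2'] at hq
  linarith

end Pool.Agent.Helper63.Sidon
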