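import Mathlib

/-!
# The renewal sequence with uniform steps

For `u ≥ 1` there is a sequence `v` on the integers, zero on the negatives, with `v 0 = 1` and
`u * v (n+1) = v n + v (n-1) + ... + v (n-u+1)` for `n ≥ 0`.  We show
`∑ j < u, (u - j) * v (n - j) = u` for `n ≥ 0` and `(v n - 2/(u+1))^2 ≤ (1 - 1/u)^n`.
-/

set_option autoImplicit false

open Finset

namespace Pool.Agent.Helper63.Sidon

/-- Auxiliary approximations of the renewal sequence. -/
noncomputable def approx (u : ℕ) : ℕ → ℤ → ℝ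
  | 0 => fun x => if x = 0 then 1 else 0
  | (n + 1) => fun x =>
      if x = (n : ℤ) + 1 then (∑ j ∈ range u, approx u n ((n : ℤ) - j)) / u else approx u n x

/-- The renewal sequence. -/
noncomputable def ren (u : ℕ) (x : ℤ) : ℝ := approx u x.toNat x

lemma approx_stable (u n : ℕ) (x : ℤ) (hx : x ≤ n) : approx u n x = ren u x := by
  induction n with
  | zero =>
    have h : x.toNat = 0 := by omega
    simp [ren, h]
  | succ m ih =>
    by_cases hx' : x = (m : ℤ) + 1
    · have h : x.toNat = m + 1 := by omega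
      simp [ren, h]
    · have hle : x ≤ (m : ℤ) := by push_cast at hx; omega
      rw [← ih hle]
      simp [approx, hx']

lemma ren_neg (u : ℕ) (x : ℤ) (hx : x < 0) : ren u x = 0 := by
  have h : x.toNat = 0 := by omega
  have h2 : x ≠ 0 := by omega
  simp [ren, h, approx, h2]

lemma approx_nonneg (u n : ℕ) : ∀ x : ℤ, 0 ≤ approx u n x := by
  induction n with
  | zero =>
    intro x
    simp only [approx]
    split_ifs <;> norm_num
  | succ n ih =>
    intro x
    simp only [approx]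
    split_ifs
    · exact div_nonneg (Finset.sum_nonneg fun j _ => ih _) (by positivity)
    · exact ih x

lemma ren_nonneg (u : ℕ) (x : ℤ) : 0 ≤ ren u x := approx_nonneg u _ x

lemma ren_zero (u : ℕ) : ren u 0 = 1 := by
  simp [ren, approx]

lemma ren_succ (u : ℕ) (hu : 0 < u) (n : ℕ) :
    (u : ℝ) * ren u ((n : ℤ) + 1) = ∑ j ∈ range u, ren u ((n : ℤ) - j) := by
  have h : ren u ((n : ℤ) + 1) = (∑ j ∈ range u, approx u n ((n : ℤ) - j)) / u := by
    have h1 : ((n : ℤ) + 1).toNat = n + 1 := by omega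
    simp [ren, h1, approx]
  have hu' : (u : ℝ) ≠ 0 := by positivity
  rw [h, mul_div_cancel₀ _ hu']
  refine Finset.sum_congr rfl fun j _ => ?_
  apply approx_stable
  omega

/-- Abel summation for the ramp weights. -/
lemma ramp_step (f : ℤ → ℝ) (n : ℤ) (u : ℕ) :
    ∑ j ∈ range u, ((u : ℝ) - j) * f (n + 1 - j)
      = ∑ j ∈ range u, ((u : ℝ) - j) * f (n - j) + u * f (n + 1) - ∑ j ∈ range u, f (n - j) := by
  rcases u with _ | u
  · simp
  · rw [Finset.sum_range_succ' (fun j : ℕ => (((u + 1 : ℕ) : ℝ) - j) * f (n + 1 - j))]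
    have h1 : ∑ j ∈ range u, (((u + 1 : ℕ) : ℝ) - ((j + 1 : ℕ) : ℝ)) * f (n + 1 - ((j + 1 : ℕ) : ℤ))
        = ∑ j ∈ range (u + 1), ((u : ℝ) - j) * f (n - j) := by
      rw [Finset.sum_range_succ]
      simp only [sub_self, zero_mul, add_zero]
      refine Finset.sum_congr rfl fun j _ => ?_
      have e1 : n + 1 - ((j + 1 : ℕ) : ℤ) = n - j := by push_cast; ring
      rw [e1]
      push_cast
      ring
    rw [h1]
    have h2 : ∑ j ∈ range (u + 1), (((u + 1 : ℕ) : ℝ) - j) * f (n - j)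
        = ∑ j ∈ range (u + 1), ((u : ℝ) - j) * f (n - j) + ∑ j ∈ range (u + 1), f (n - j) := by
      rw [← Finset.sum_add_distrib]
      refine Finset.sum_congr rfl fun j _ => ?_
      push_cast
      ring
    rw [h2]
    push_cast
    simp only [sub_zero]
    ring

/-- The total mass of the ramp. -/
lemma ramp_sum (u : ℕ) : ∑ j ∈ range u, ((u : ℝ) - j) = (u : ℝ) * (u + 1) / 2 := by
  induction u with
  | zero => simp
  | succ u ih =>
    have h : ∑ j ∈ range (u + 1), (((u + 1 : ℕ) : ℝ) - j)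
        = ∑ j ∈ range (u + 1), ((u : ℝ) - j) + ∑ j ∈ range (u + 1), (1 : ℝ) := by
      rw [← Finset.sum_add_distrib]
      refine Finset.sum_congr rfl fun j _ => ?_
      push_cast
      ring
    rw [h, Finset.sum_range_succ, ih]
    simp
    ring

/-- The second moment of the ramp. -/
lemma ramp_sq_sum (u : ℕ) :
    ∑ j ∈ range u, ((u : ℝ) - j) ^ 2 = (u : ℝ) * (u + 1) * (2 * u + 1) / 6 := by
  induction u with
  | zero => simp
  | succ u ih =>
    have h : ∑ j ∈ range (u + 1), (((u + 1 : ℕ) : ℝ) - j) ^ 2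
        = ∑ j ∈ range (u + 1), ((u : ℝ) - j) ^ 2 + 2 * ∑ j ∈ range (u + 1), ((u : ℝ) - j)
          + ∑ j ∈ range (u + 1), (1 : ℝ) := by
      rw [Finset.mul_sum, ← Finset.sum_add_distrib, ← Finset.sum_add_distrib]
      refine Finset.sum_congr rfl fun j _ => ?_
      push_cast
      ring
    rw [h, Finset.sum_range_succ, ih, Finset.sum_range_succ, ramp_sum]
    simp
    ring

/-- The first moment of the ramp. -/
lemma ramp_moment (u : ℕ) :
    ∑ j ∈ range u, ((u : ℝ) - j) * j = (u : ℝ) * (u + 1) / 2 * ((u - 1) / 3) := by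
  have h : ∑ j ∈ range u, ((u : ℝ) - j) * j
      = u * ∑ j ∈ range u, ((u : ℝ) - j) - ∑ j ∈ range u, ((u : ℝ) - j) ^ 2 := by
    rw [Finset.mul_sum, ← Finset.sum_sub_distrib]
    refine Finset.sum_congr rfl fun j _ => ?_
    ring
  rw [h, ramp_sum, ramp_sq_sum]
  ring

/-- The convolution of the ramp with the renewal sequence is constant. -/
lemma ramp_conv_nat (u : ℕ) (hu : 0 < u) (n : ℕ) :
    ∑ j ∈ range u, ((u : ℝ) - j) * ren u ((n : ℤ) - j) = u := by
  induction n with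
  | zero =>
    rw [Finset.sum_eq_single_of_mem 0 (Finset.mem_range.2 hu)]
    · simp [ren_zero]
    · intro j _ hj
      rw [ren_neg u _ (by push_cast; omega)]
      simp
  | succ n ih =>
    have h := ramp_step (ren u) (n : ℤ) u
    have h2 := ren_succ u hu n
    push_cast
    rw [h, ih, h2]
    ring

lemma ramp_conv (u : ℕ) (hu : 0 < u) (x : ℤ) (hx : 0 ≤ x) :
    ∑ j ∈ range u, ((u : ℝ) - j) * ren u (x - j) = u := by
  obtain ⟨n, rfl⟩ := Int.eq_ofNat_of_zero_le hx
  exact ramp_conv_nat u hu n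

/-- The limit value. -/
noncomputable def lim (u : ℕ) : ℝ := 2 / ((u : ℝ) + 1)

lemma lim_mul (u : ℕ) : lim u * ((u : ℝ) * (u + 1) / 2) = u := by
  have h : (u : ℝ) + 1 ≠ 0 := by positivity
  unfold lim
  field_simp

lemma lim_pos (u : ℕ) : 0 < lim u := by unfold lim; positivity

lemma lim_le_one (u : ℕ) (hu : 0 < u) : lim u ≤ 1 := by
  unfold lim
  rw [div_le_one (by positivity)]
  have : (1 : ℝ) ≤ u := by exact_mod_cast hu
  linarith

/-- The centred sequence. -/
noncomputable def cen (u : ℕ) (x : ℤ) : ℝ := ren u x - lim u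

lemma ramp_cen (u : ℕ) (hu : 0 < u) (n : ℕ) :
    ∑ j ∈ range u, ((u : ℝ) - j) * cen u ((n : ℤ) - j) = 0 := by
  have h : ∑ j ∈ range u, ((u : ℝ) - j) * cen u ((n : ℤ) - j)
      = ∑ j ∈ range u, ((u : ℝ) - j) * ren u ((n : ℤ) - j)
        - lim u * ∑ j ∈ range u, ((u : ℝ) - j) := by
    rw [Finset.mul_sum, ← Finset.sum_sub_distrib]
    refine Finset.sum_congr rfl fun j _ => ?_
    unfold cen
    ring
  rw [h, ramp_conv_nat u hu, ramp_sum, lim_mul]
  ring

lemma cen_succ (u : ℕ) (hu : 0 < u) (n : ℕ) :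
    (u : ℝ) * cen u ((n : ℤ) + 1) = ∑ j ∈ range u, cen u ((n : ℤ) - j) := by
  have h := ren_succ u hu n
  simp only [cen, Finset.sum_sub_distrib, Finset.sum_const, Finset.card_range, nsmul_eq_mul]
  rw [mul_sub, h]

/-- The energy of the centred sequence. -/
noncomputable def en (u : ℕ) (x : ℤ) : ℝ := ∑ j ∈ range u, ((u : ℝ) - j) * cen u (x - j) ^ 2

lemma en_zero_le (u : ℕ) (hu : 0 < u) : en u 0 ≤ u := by
  have h : en u 0 = ∑ j ∈ range u, ((u : ℝ) - j) * (cen u (0 - j) * ren u (0 - j))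
      - lim u * ∑ j ∈ range u, ((u : ℝ) - j) * cen u (((0 : ℕ) : ℤ) - j) := by
    rw [Finset.mul_sum, ← Finset.sum_sub_distrib]
    refine Finset.sum_congr rfl fun j _ => ?_
    simp only [Nat.cast_zero, cen]
    ring
  rw [h, ramp_cen u hu 0, Finset.sum_eq_single_of_mem 0 (Finset.mem_range.2 hu)]
  · simp only [Nat.cast_zero, sub_zero, cen, ren_zero, mul_zero, mul_one]
    have := lim_pos u
    have hu' : (0 : ℝ) < u := by exact_mod_cast hu
    nlinarith
  · intro j _ hj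
    rw [ren_neg u _ (by omega)]
    simp

lemma en_succ_le (u : ℕ) (hu : 0 < u) (n : ℕ) :
    en u ((n : ℤ) + 1) ≤ (1 - 1 / (u : ℝ)) * en u n := by
  have hu' : (0 : ℝ) < u := by exact_mod_cast hu
  set t := cen u ((n : ℤ) + 1) with ht
  have h1 : en u ((n : ℤ) + 1) = en u n + u * t ^ 2 - ∑ j ∈ range u, cen u ((n : ℤ) - j) ^ 2 :=
    ramp_step (fun x => cen u x ^ 2) (n : ℤ) u
  have h2 : ∑ j ∈ range u, (cen u ((n : ℤ) - j) - t) ^ 2
      = ∑ j ∈ range u, cen u ((n : ℤ) - j) ^ 2 - u * t ^ 2 := by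
    have e : ∑ j ∈ range u, (cen u ((n : ℤ) - j) - t) ^ 2
        = ∑ j ∈ range u, cen u ((n : ℤ) - j) ^ 2 - 2 * t * ∑ j ∈ range u, cen u ((n : ℤ) - j)
          + ∑ j ∈ range u, t ^ 2 := by
      rw [Finset.mul_sum, ← Finset.sum_sub_distrib, ← Finset.sum_add_distrib]
      refine Finset.sum_congr rfl fun j _ => ?_
      ring
    rw [e, ← cen_succ u hu n]
    simp only [Finset.sum_const, Finset.card_range, nsmul_eq_mul]
    ring
  have h3 : en u n ≤ ∑ j ∈ range u, ((u : ℝ) - j) * (cen u ((n : ℤ) - j) - t) ^ 2 := by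
    have e : ∑ j ∈ range u, ((u : ℝ) - j) * (cen u ((n : ℤ) - j) - t) ^ 2
        = en u n - 2 * t * ∑ j ∈ range u, ((u : ℝ) - j) * cen u ((n : ℤ) - j)
          + t ^ 2 * ∑ j ∈ range u, ((u : ℝ) - j) := by
      unfold en
      rw [Finset.mul_sum, Finset.mul_sum, ← Finset.sum_sub_distrib, ← Finset.sum_add_distrib]
      refine Finset.sum_congr rfl fun j _ => ?_
      ring
    rw [e, ramp_cen u hu n, ramp_sum]
    have : 0 ≤ t ^ 2 * ((u : ℝ) * (u + 1) / 2) := by positivity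
    linarith
  have h4 : ∑ j ∈ range u, ((u : ℝ) - j) * (cen u ((n : ℤ) - j) - t) ^ 2
      ≤ u * ∑ j ∈ range u, (cen u ((n : ℤ) - j) - t) ^ 2 := by
    rw [Finset.mul_sum]
    refine Finset.sum_le_sum fun j _ => ?_
    apply mul_le_mul_of_nonneg_right _ (sq_nonneg _)
    have : (0 : ℝ) ≤ j := by positivity
    linarith
  have h5 : en u n / u ≤ ∑ j ∈ range u, (cen u ((n : ℤ) - j) - t) ^ 2 := by
    rw [div_le_iff₀ hu']
    linarith
  have h6 : (1 - 1 / (u : ℝ)) * en u n = en u n - en u n / u := by ring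
  rw [h6, h1]
  linarith

lemma en_le (u : ℕ) (hu : 0 < u) (n : ℕ) : en u n ≤ (1 - 1 / (u : ℝ)) ^ n * u := by
  have hu' : (1 : ℝ) ≤ u := by exact_mod_cast hu
  have h0 : 0 ≤ 1 - 1 / (u : ℝ) := by
    rw [sub_nonneg, div_le_one (by linarith)]
    exact hu'
  induction n with
  | zero => simpa using en_zero_le u hu
  | succ n ih =>
    push_cast
    calc en u ((n : ℤ) + 1) ≤ (1 - 1 / (u : ℝ)) * en u n := en_succ_le u hu n
      _ ≤ (1 - 1 / (u : ℝ)) * ((1 - 1 / (u : ℝ)) ^ n * u) := mul_le_mul_of_nonneg_left ih h0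
      _ = (1 - 1 / (u : ℝ)) ^ (n + 1) * u := by ring

/-- Exponential convergence of the renewal sequence. -/
lemma cen_sq_le (u : ℕ) (hu : 0 < u) (n : ℕ) : cen u n ^ 2 ≤ (1 - 1 / (u : ℝ)) ^ n := by
  have hu' : (0 : ℝ) < u := by exact_mod_cast hu
  have h1 : (u : ℝ) * cen u n ^ 2 ≤ en u n := by
    unfold en
    have h := Finset.single_le_sum (f := fun j : ℕ => ((u : ℝ) - j) * cen u ((n : ℤ) - j) ^ 2)
      (s := range u) (fun j hj => by
        have : (j : ℝ) ≤ u := by exact_mod_cast (Finset.mem_range.1 hj).le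
        have h2 : 0 ≤ (u : ℝ) - j := by linarith
        positivity) (Finset.mem_range.2 hu)
    simpa using h
  have h2 := en_le u hu n
  have h3 : (u : ℝ) * cen u n ^ 2 ≤ u * (1 - 1 / (u : ℝ)) ^ n := by
    linarith
  exact le_of_mul_le_mul_left h3 hu'

lemma cen_abs_le (u : ℕ) (hu : 0 < u) (x : ℤ) (hx : 0 ≤ x) :
    |cen u x| ≤ Real.exp (-(x : ℝ) / (2 * u)) := by
  obtain ⟨n, rfl⟩ := Int.eq_ofNat_of_zero_le hx
  have hu' : (1 : ℝ) ≤ u := by exact_mod_cast hu
  have h0 : 0 ≤ 1 - 1 / (u : ℝ) := by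
    rw [sub_nonneg, div_le_one (by linarith)]
    exact hu'
  have h1 := cen_sq_le u hu n
  have h2 : 1 - 1 / (u : ℝ) ≤ Real.exp (-(1 / (u : ℝ))) := by
    have := Real.add_one_le_exp (-(1 / (u : ℝ)))
    linarith
  have h3 : (1 - 1 / (u : ℝ)) ^ n ≤ Real.exp (-(1 / (u : ℝ))) ^ n := pow_le_pow_left₀ h0 h2 n
  have h4 : Real.exp (-(1 / (u : ℝ))) ^ n = Real.exp (-(n : ℝ) / (2 * u)) ^ 2 := by
    rw [← Real.exp_nat_mul, ← Real.exp_nat_mul]
    congr 1
    push_cast
    field_simp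
  have h5 : cen u n ^ 2 ≤ Real.exp (-(n : ℝ) / (2 * u)) ^ 2 := by
    rw [← h4]
    exact h1.trans h3
  have h6 := abs_le_of_sq_le_sq h5 (Real.exp_pos _).le
  simpa using h6

end Pool.Agent.Helper63.Sidon
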